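import Pool.Agent.Work.MP_8c67d3_co.InterfaceFL

/-!
# Block MI of MP_8c67d3_co: mirror images
-/

set_option autoImplicit false

namespace Tess

namespace CMap

variable {D : Type} (M : CMap D)

lemma mirror_face_apply (d : D) : M.mirror.face d = M.inv (M.rot.symm d) := rfl

lemma sameCycle_symm {D : Type} (π : Equiv.Perm D) (d e : D) :
    (π⁻¹).SameCycle d e ↔ π.SameCycle d e := Equiv.Perm.sameCycle_inv

lemma mirror_conj_pow (i : ℕ) (d : D) :
    M.rot.symm ((M.mirror.face ^ i) d) = (M.face.symm ^ i) (M.rot.symm d) := by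
  induction i with
  | zero => simp
  | succ n ih =>
    rw [pow_succ', Equiv.Perm.mul_apply, pow_succ', Equiv.Perm.mul_apply, ← ih,
      mirror_face_apply, face_symm_apply]

lemma mirror_conj_zpow (i : ℤ) (d : D) :
    M.rot.symm ((M.mirror.face ^ i) d) = (M.face.symm ^ i) (M.rot.symm d) := by
  rcases Int.eq_nat_or_neg i with ⟨n, rfl | rfl⟩
  · rw [zpow_natCast, zpow_natCast, mirror_conj_pow]
  · rw [zpow_neg, zpow_neg, zpow_natCast, zpow_natCast]
    obtain ⟨e, rfl⟩ := (M.mirror.face ^ n).surjective d
    rw [mirror_conj_pow]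
    have h1 : ((M.mirror.face ^ n)⁻¹) ((M.mirror.face ^ n) e) = e :=
      (M.mirror.face ^ n).symm_apply_apply e
    have h2 : ((M.face.symm ^ n)⁻¹) ((M.face.symm ^ n) (M.rot.symm e)) = M.rot.symm e :=
      (M.face.symm ^ n).symm_apply_apply _
    rw [h1, h2]

lemma mirror_face_sameCycle (d e : D) :
    M.mirror.face.SameCycle d e ↔ M.face.SameCycle (M.rot.symm d) (M.rot.symm e) := by
  rw [← sameCycle_symm M.face]
  constructor
  · rintro ⟨i, rfl⟩
    exact ⟨i, (M.mirror_conj_zpow i d).symm⟩
  · rintro ⟨i, hi⟩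
    refine ⟨i, ?_⟩
    exact M.rot.symm.injective ((M.mirror_conj_zpow i d).trans hi)

/-- Vertices of the mirror image. -/
def mV : M.mirror.V ≃ M.V :=
  Quotient.congr (Equiv.refl D) (fun d e => sameCycle_symm M.rot d e)

/-- Faces of the mirror image. -/
def mF : M.mirror.F ≃ M.F :=
  Quotient.congr M.rot.symm (fun d e => M.mirror_face_sameCycle d e)

@[simp] lemma mV_vert (d : D) : M.mV (M.mirror.vert d) = M.vert d := rfl

@[simp] lemma mF_fac (d : D) : M.mF (M.mirror.fac d) = M.fac (M.inv d) := by
  have : M.mF (M.mirror.fac d) = M.fac (M.rot.symm d) := rfl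
  rw [this, M.fac_inv]

lemma mirror_vert_eq_iff (d : D) (v : M.mirror.V) : M.mirror.vert d = v ↔ M.vert d = M.mV v := by
  rw [← M.mV_vert, M.mV.apply_eq_iff_eq]

lemma mirror_inc_iff (v : M.mirror.V) (f : M.mirror.F) :
    M.mirror.Inc v f ↔ M.Inc (M.mV v) (M.mF f) := by
  constructor
  · rintro ⟨d, rfl, rfl⟩
    exact ⟨M.rot.symm d, by simp, by rw [mF_fac, M.fac_inv]⟩
  · rintro ⟨d, h1, h2⟩
    refine ⟨M.rot d, ?_, ?_⟩
    · apply M.mV.injective
      rw [mV_vert, vert_rot, h1]
    · apply M.mF.injective
      rw [mF_fac, fac_inv_rot, h2]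

lemma mirror_adj_iff (u v : M.mirror.V) : M.mirror.Adj u v ↔ M.Adj (M.mV u) (M.mV v) := by
  constructor
  · rintro ⟨d, rfl, rfl⟩
    exact ⟨d, rfl, rfl⟩
  · rintro ⟨d, h1, h2⟩
    exact ⟨d, (M.mirror_vert_eq_iff d u).2 h1, (M.mirror_vert_eq_iff _ v).2 h2⟩

lemma mirror_reach_iff (S : Set M.mirror.V) (u v : M.mirror.V) :
    M.mirror.Reach S u v ↔ M.Reach (M.mV '' S) (M.mV u) (M.mV v) := by
  constructor
  · intro h
    induction h with
    | refl => exact Relation.ReflTransGen.refl
    | tail _ hbc ih =>
      refine ih.tail ⟨(M.mirror_adj_iff _ _).1 hbc.1, ?_⟩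
      rintro ⟨w, hw, hwe⟩
      rw [M.mV.injective hwe] at hw
      exact hbc.2 hw
  · intro h
    have key : ∀ a b : M.V, M.Reach (M.mV '' S) a b →
        M.mirror.Reach S (M.mV.symm a) (M.mV.symm b) := by
      intro a b hab
      induction hab with
      | refl => exact Relation.ReflTransGen.refl
      | tail _ hbc ih =>
        refine ih.tail ⟨(M.mirror_adj_iff _ _).2 (by simpa using hbc.1), ?_⟩
        intro hm
        exact hbc.2 ⟨_, hm, by simp⟩
    have := key _ _ h
    simpa using this

lemma mirror_val (d : D) : M.mirror.val d = M.val d := by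
  unfold val
  rw [Function.minimalPeriod_eq_minimalPeriod_iff]
  intro n
  unfold Function.IsPeriodicPt Function.IsFixedPt
  rw [iterate_eq_pow', iterate_eq_pow']
  have h1 : M.mirror.rot = M.rot⁻¹ := rfl
  rw [h1, inv_pow, Equiv.Perm.inv_eq_iff_eq]
  exact eq_comm

lemma mirror_period (d : D) : Function.minimalPeriod M.mirror.face d =
    Function.minimalPeriod M.face (M.rot.symm d) := by
  rw [Function.minimalPeriod_eq_minimalPeriod_iff]
  intro n
  unfold Function.IsPeriodicPt Function.IsFixedPt
  rw [iterate_eq_pow', iterate_eq_pow']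
  have h1 : M.face.symm = M.face⁻¹ := rfl
  rw [← M.rot.symm.injective.eq_iff, M.mirror_conj_pow, h1, inv_pow, Equiv.Perm.inv_eq_iff_eq]
  exact eq_comm

lemma mirror_word {k : ℕ} (d : D)
    (hper : Function.minimalPeriod M.face (M.rot.symm d) = k) :
    M.mirror.word k d = (M.word k (M.face (M.rot.symm d))).reverse := by
  apply List.ext_getElem
  · simp [word]
  · intro i h1 h2
    have hi : i < k := by simpa [word] using h1
    rw [List.getElem_reverse]
    simp only [word, List.getElem_ofFn, List.length_ofFn]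
    rw [mirror_val]
    have h3 : M.vert ((M.mirror.face ^ i) d) = M.vert ((M.face ^ (k - 1 - i)) (M.face (M.rot.symm d))) := by
      rw [← M.vert_rot_symm, M.mirror_conj_pow]
      congr 1
      have h4 : M.face.symm = M.face⁻¹ := rfl
      rw [h4, inv_pow, Equiv.Perm.inv_eq_iff_eq, ← Equiv.Perm.mul_apply, ← pow_add]
      have h5 : (M.face ^ (i + (k - 1 - i))) (M.face (M.rot.symm d)) =
          (M.face ^ k) (M.rot.symm d) := by
        rw [← Equiv.Perm.mul_apply, ← pow_succ]
        congr 2
        omega
      rw [h5, ← hper, pow_minimalPeriod]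
    exact M.val_eq_of_vert_eq h3

lemma mirror_corona (x : M.mirror.V) (n : ℕ) :
    M.corona (M.mV x) n = (M.mV '' (M.mirror.corona x n).1, M.mF '' (M.mirror.corona x n).2) := by
  induction n with
  | zero =>
    unfold corona
    simp
  | succ n ih =>
    unfold corona
    rw [ih]
    simp only
    have hmF : ∀ f, f ∈ M.mF '' (M.mirror.corona x n).2 ↔ M.mF.symm f ∈ (M.mirror.corona x n).2 := by
      intro f
      constructor
      · rintro ⟨g, hg, rfl⟩; simpa using hg
      · intro h; exact ⟨_, h, by simp⟩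
    have hmV : ∀ f, f ∈ M.mV '' (M.mirror.corona x n).1 ↔ M.mV.symm f ∈ (M.mirror.corona x n).1 := by
      intro f
      constructor
      · rintro ⟨g, hg, rfl⟩; simpa using hg
      · intro h; exact ⟨_, h, by simp⟩
    have hnew : ∀ f : M.F, (f ∉ M.mF '' (M.mirror.corona x n).2 ∧
        ∃ v ∈ M.mV '' (M.mirror.corona x n).1, M.Inc v f) ↔
        (M.mF.symm f ∉ (M.mirror.corona x n).2 ∧
          ∃ v ∈ (M.mirror.corona x n).1, M.mirror.Inc v (M.mF.symm f)) := by
      intro f
      rw [hmF]
      constructor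
      · rintro ⟨h1, v, ⟨w, hw, rfl⟩, h2⟩
        exact ⟨h1, w, hw, (M.mirror_inc_iff _ _).2 (by simpa using h2)⟩
      · rintro ⟨h1, v, hv, h2⟩
        exact ⟨h1, M.mV v, ⟨v, hv, rfl⟩, by simpa using (M.mirror_inc_iff _ _).1 h2⟩
    apply Prod.ext
    · ext u
      simp only [Set.mem_ofPred_eq, Set.mem_image]
      constructor
      · rintro ⟨h1, f, hf, h2⟩
        refine ⟨M.mV.symm u, ⟨fun h => h1 ⟨_, h, by simp⟩, M.mF.symm f, (hnew f).1 hf, ?_⟩, by simp⟩
        exact (M.mirror_inc_iff _ _).2 (by simpa using h2)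
      · rintro ⟨w, ⟨h1, f, hf, h2⟩, rfl⟩
        refine ⟨?_, M.mF f, ?_, (M.mirror_inc_iff _ _).1 h2⟩
        · rintro ⟨w', hw', he⟩
          rw [M.mV.injective he] at hw'
          exact h1 hw'
        · have := (hnew (M.mF f)).2 (by simpa using hf)
          exact this
    · ext f
      simp only [Set.mem_ofPred_eq, Set.mem_image]
      constructor
      · intro hf
        exact ⟨M.mF.symm f, (hnew f).1 hf, by simp⟩
      · rintro ⟨g, hg, rfl⟩
        exact (hnew (M.mF g)).2 (by simpa using hg)

lemma mirror_growth (x : M.mirror.V) : M.mirror.growth x = M.growth (M.mV x) := by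
  unfold growth
  congr 1
  funext n
  rw [M.mirror_corona]
  simp only
  rw [M.mF.injective.encard_image]

end CMap

theorem mirrorBlock : MirrorStatement := by
  intro σ D M hM hσ _
  refine ⟨?_, ?_, ?_⟩
  · constructor
    · exact hM.infinite
    · intro u v
      rw [M.mirror_reach_iff, Set.image_empty]
      exact hM.connected _ _
    · intro d
      rw [M.mirror_val]
      exact hM.locally_finite d
    · intro d
      rw [M.mirror_period]
      exact hM.finite_faces _
    · -- plane
      intro A hA hv
      obtain ⟨X, hX⟩ := hM.plane A hA (by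
        intro v
        have h1 := hv (M.mV.symm v)
        have h2 : {d | d ∈ A ∧ M.mirror.vert d = M.mV.symm v} = {d | d ∈ A ∧ M.vert d = v} := by
          ext d
          simp only [Set.mem_ofPred_eq, M.mirror_vert_eq_iff, Equiv.apply_symm_apply]
        rwa [h2] at h1)
      refine ⟨X.map M.mF.symm.toEmbedding, fun d => ?_⟩
      have h1 : ∀ e, M.mirror.fac e ∈ X.map M.mF.symm.toEmbedding ↔ M.fac (M.inv e) ∈ X := by
        intro e
        rw [Finset.mem_map_equiv, Equiv.symm_symm, M.mF_fac]
      rw [h1, h1]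
      have h2 : M.mirror.inv d = M.inv d := rfl
      rw [h2, M.inv_inv, hX d]
      tauto
    · -- one ended
      intro S hS
      obtain ⟨⟨u, hu1, hu2⟩, h2⟩ := hM.one_ended (M.mV '' S) (hS.image _)
      have hset : ∀ w : M.mirror.V, {z | M.mirror.Reach S w z}.Infinite ↔
          {z | M.Reach (M.mV '' S) (M.mV w) z}.Infinite := by
        intro w
        have h3 : {z | M.Reach (M.mV '' S) (M.mV w) z} = M.mV '' {z | M.mirror.Reach S w z} := by
          ext z
          simp only [Set.mem_ofPred_eq, Set.mem_image]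
          constructor
          · intro h
            exact ⟨M.mV.symm z, (M.mirror_reach_iff _ _ _).2 (by simpa using h), by simp⟩
          · rintro ⟨y, hy, rfl⟩
            exact (M.mirror_reach_iff _ _ _).1 hy
        rw [h3, Set.infinite_image_iff M.mV.injective.injOn]
      refine ⟨⟨M.mV.symm u, ?_, ?_⟩, ?_⟩
      · intro h
        exact hu1 ⟨_, h, by simp⟩
      · rw [hset, Equiv.apply_symm_apply]
        exact hu2
      · intro a b ha hb hai hbi
        rw [M.mirror_reach_iff]
        apply h2
        · rintro ⟨w, hw, he⟩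
          rw [M.mV.injective he] at hw
          exact ha hw
        · rintro ⟨w, hw, he⟩
          rw [M.mV.injective he] at hw
          exact hb hw
        · rwa [← hset]
        · rwa [← hset]
    · intro d h
      apply hM.loopless d
      have h1 : M.mirror.inv d = M.inv d := rfl
      rw [h1, M.mirror_vert_eq_iff, M.mV_vert] at h
      exact h
    · intro d e h1 h2
      apply hM.no_multi d e
      · rw [M.mirror_vert_eq_iff, M.mV_vert] at h1
        exact h1
      · rw [M.mirror_vert_eq_iff, M.mV_vert] at h2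
        exact h2
    · intro u v a b hau hav hbu hbv
      rw [M.mirror_reach_iff, Set.image_pair]
      apply hM.three_conn
      · exact fun h => hau (M.mV.injective h)
      · exact fun h => hav (M.mV.injective h)
      · exact fun h => hbu (M.mV.injective h)
      · exact fun h => hbv (M.mV.injective h)
  · intro d
    refine ⟨by rw [M.mirror_period]; exact (hσ _).1, ?_⟩
    rw [M.mirror_word d (hσ _).1]
    rcases (hσ (M.face (M.rot.symm d))).2 with h | h
    · right
      exact h.reverse
    · left
      have := h.reverse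
      rwa [List.reverse_reverse] at this
  · intro x
    exact ⟨M.mV.symm x, by rw [M.mirror_growth, Equiv.apply_symm_apply]⟩

end Tess
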