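import Pool.Agent.Work.MP_8c67d3_co.Interface

/-!
# Chains with coefficients in `ZMod 2` (MP_8c67d3_co)
-/

set_option autoImplicit false

namespace Tess

section Z2

lemma z2_xor (a b : ZMod 2) : ¬ (a ≠ 0 ↔ b ≠ 0) ↔ a + b ≠ 0 := by
  revert a b; decide

lemma z2_add_self (a : ZMod 2) : a + a = 0 := by
  revert a; decide

lemma z2_ext (a b : ZMod 2) (h : a ≠ 0 ↔ b ≠ 0) : a = b := by
  revert a b; decide

lemma z2_eq_of_add {a b : ZMod 2} (h : a + b = 0) : a = b := by
  revert a b; decide

lemma z2_add_eq {a b c : ZMod 2} (h : a + b = c) : b = a + c := by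
  revert a b c; decide

open Classical in
/-- The indicator function of a finite set. -/
noncomputable def ind {D : Type} (A : Finset D) (d : D) : ZMod 2 := if d ∈ A then 1 else 0

lemma ind_ne {D : Type} {A : Finset D} {d : D} : ind A d ≠ 0 ↔ d ∈ A := by
  classical
  unfold ind
  split_ifs with h
  · simp [h]
  · simp [h]

lemma ind_supp {D : Type} (A : Finset D) : {d | ind A d ≠ 0}.Finite := by
  have : {d | ind A d ≠ 0} = (A : Set D) := by
    ext d; simp only [Set.mem_ofPred_eq]; rw [ind_ne]; simp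
  rw [this]
  exact A.finite_toSet

lemma ind_toFinset {D : Type} {x : D → ZMod 2} (h : {d | x d ≠ 0}.Finite) : ind h.toFinset = x := by
  funext d
  apply z2_ext
  rw [ind_ne]
  simp

open Classical in
lemma even_ncard_iff {D : Type} (A S : Finset D) (P : D → Prop) (hS : ∀ d, d ∈ S ↔ P d) :
    Even {d | d ∈ A ∧ P d}.ncard ↔ ∑ d ∈ S, ind A d = 0 := by
  have h1 : {d | d ∈ A ∧ P d} = ((S.filter (fun d => d ∈ A) : Finset D) : Set D) := by
    ext d
    simp only [Set.mem_ofPred_eq, Finset.coe_filter, hS]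
    exact and_comm
  rw [h1, Set.ncard_coe_finset]
  unfold ind
  rw [Finset.sum_boole]
  exact (ZMod.natCast_eq_zero_iff_even).symm

/-- Primitives along the orbits of a permutation. -/
lemma exists_prim {D : Type} (π : Equiv.Perm D) (hper : ∀ d, 0 < Function.minimalPeriod π d)
    (Z : D → ZMod 2)
    (h0 : ∀ d, ∑ i ∈ Finset.range (Function.minimalPeriod π d), Z ((π ^ i) d) = 0) :
    ∃ c : D → ZMod 2, (∀ d, c d + c (π d) = Z d) ∧
      ∀ d, c d ≠ 0 → ∃ e, π.SameCycle d e ∧ Z e ≠ 0 := by
  classical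
  let s := Equiv.Perm.SameCycle.setoid π
  let base : D → D := fun d => (Quotient.mk s d).out
  have hbase : ∀ d, π.SameCycle (base d) d := fun d => Quotient.mk_out (s := s) d
  have hbeq : ∀ d, base (π d) = base d := by
    intro d
    have : Quotient.mk s (π d) = Quotient.mk s d := by
      apply Quotient.sound
      exact (Equiv.Perm.sameCycle_apply_left).2 (Equiv.Perm.SameCycle.refl _ _)
    show (Quotient.mk s (π d)).out = (Quotient.mk s d).out
    rw [this]
  have hex : ∀ d, ∃ i < Function.minimalPeriod π (base d), (π ^ i) (base d) = d := fun d =>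
    (sameCycle_iff_exists_lt π (hper _)).1 (hbase d)
  choose idx hidx1 hidx2 using hex
  have huniq : ∀ d i, i < Function.minimalPeriod π (base d) → (π ^ i) (base d) = d → idx d = i := by
    intro d i hi h
    exact pow_injOn_minimalPeriod π (base d) (hidx1 d) hi ((hidx2 d).trans h.symm)
  refine ⟨fun d => ∑ j ∈ Finset.range (idx d), Z ((π ^ j) (base d)), ?_, ?_⟩
  · intro d
    simp only [hbeq]
    by_cases h : idx d + 1 < Function.minimalPeriod π (base d)
    · have h1 : idx (π d) = idx d + 1 := by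
        apply huniq
        · rw [hbeq]; exact h
        · rw [hbeq, pow_succ', Equiv.Perm.mul_apply, hidx2]
      rw [h1, Finset.sum_range_succ, hidx2, ← add_assoc, z2_add_self, zero_add]
    · have hp : idx d + 1 = Function.minimalPeriod π (base d) := by
        have := hidx1 d
        omega
      have h1 : idx (π d) = 0 := by
        apply huniq
        · rw [hbeq]; exact hper _
        · rw [hbeq, pow_zero, Equiv.Perm.one_apply]
          have h2 := pow_minimalPeriod π (base d)
          rw [← hp, pow_succ', Equiv.Perm.mul_apply, hidx2] at h2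
          exact h2.symm
      have h3 := h0 (base d)
      rw [← hp, Finset.sum_range_succ, hidx2] at h3
      rw [h1, Finset.range_zero, Finset.sum_empty, add_zero]
      exact z2_eq_of_add h3
  · intro d hd
    by_contra hcon
    push Not at hcon
    apply hd
    apply Finset.sum_eq_zero
    intro j _
    apply hcon
    exact (hbase d).symm.trans ⟨j, by rw [zpow_natCast]⟩

end Z2

namespace CMap

variable {D : Type} {M : CMap D} {Δ : ℕ}

/-- The darts at a vertex. -/
noncomputable def Pre.vf (hM : M.Pre Δ) (v : M.V) : Finset D :=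
  Set.Finite.toFinset (s := {d | M.vert d = v}) (by
    obtain ⟨d, rfl⟩ := M.vert_surj v
    exact M.finite_vert (hM.val_pos d))

@[simp] lemma Pre.mem_vf (hM : M.Pre Δ) {v : M.V} {d : D} : d ∈ hM.vf v ↔ M.vert d = v := by
  simp [Pre.vf]

/-- The darts of a face. -/
noncomputable def Pre.ff (hM : M.Pre Δ) (f : M.F) : Finset D :=
  Set.Finite.toFinset (s := {d | M.fac d = f}) (by
    obtain ⟨d, rfl⟩ := M.fac_surj f
    exact M.finite_fac (hM.face_pos d))

@[simp] lemma Pre.mem_ff (hM : M.Pre Δ) {f : M.F} {d : D} : d ∈ hM.ff f ↔ M.fac d = f := by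
  simp [Pre.ff]

lemma Pre.sum_vf_rot (hM : M.Pre Δ) {R : Type} [AddCommMonoid R] (g : D → R) (v : M.V) :
    ∑ d ∈ hM.vf v, g (M.rot d) = ∑ d ∈ hM.vf v, g d :=
  Finset.sum_equiv M.rot (by intro d; simp) (by intro d _; rfl)

lemma Pre.sum_vf_rot_symm (hM : M.Pre Δ) {R : Type} [AddCommMonoid R] (g : D → R) (v : M.V) :
    ∑ d ∈ hM.vf v, g (M.rot.symm d) = ∑ d ∈ hM.vf v, g d :=
  Finset.sum_equiv M.rot.symm (by intro d; simp) (by intro d _; rfl)

lemma Pre.sum_ff_face (hM : M.Pre Δ) {R : Type} [AddCommMonoid R] (g : D → R) (f : M.F) :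
    ∑ d ∈ hM.ff f, g (M.face d) = ∑ d ∈ hM.ff f, g d :=
  Finset.sum_equiv M.face (by intro d; simp) (by intro d _; rfl)

lemma Pre.sum_ff_rot (hM : M.Pre Δ) {R : Type} [AddCommMonoid R] (g : D → R) (f : M.F) :
    ∑ d ∈ hM.ff f, g (M.rot d) = ∑ d ∈ hM.ff f, g (M.inv d) := by
  rw [← hM.sum_ff_face (fun d => g (M.inv d))]
  apply Finset.sum_congr rfl
  intro d _
  rw [M.face_apply, M.inv_inv]

open Classical in
lemma Pre.ff_eq_image (hM : M.Pre Δ) (d : D) :
    hM.ff (M.fac d) =
      (Finset.range (Function.minimalPeriod M.face d)).image (fun i => (M.face ^ i) d) := by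
  ext e
  rw [hM.mem_ff, eq_comm, M.fac_eq_iff_lt (hM.face_pos d)]
  simp

lemma Pre.sum_ff (hM : M.Pre Δ) {R : Type} [AddCommMonoid R] (g : D → R) (d : D) :
    ∑ e ∈ hM.ff (M.fac d), g e =
      ∑ i ∈ Finset.range (Function.minimalPeriod M.face d), g ((M.face ^ i) d) := by
  classical
  rw [hM.ff_eq_image, Finset.sum_image]
  intro i hi j hj hij
  simp only [Finset.coe_range, Set.mem_Iio] at hi hj
  exact pow_injOn_minimalPeriod M.face d hi hj hij

lemma Pre.even_vert_iff (hM : M.Pre Δ) (A : Finset D) (v : M.V) :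
    Even {d | d ∈ A ∧ M.vert d = v}.ncard ↔ ∑ d ∈ hM.vf v, ind A d = 0 :=
  even_ncard_iff A (hM.vf v) _ (fun _ => hM.mem_vf)

lemma Pre.even_fac_iff (hM : M.Pre Δ) (A : Finset D) (f : M.F) :
    Even {d | d ∈ A ∧ M.fac d = f}.ncard ↔ ∑ d ∈ hM.ff f, ind A d = 0 :=
  even_ncard_iff A (hM.ff f) _ (fun _ => hM.mem_ff)

/-- `Plane` for functions. -/
lemma Pre.plane_fun (hM : M.Pre Δ) (hP : M.Plane) (b : D → ZMod 2) (hfin : {d | b d ≠ 0}.Finite)
    (hinv : ∀ d, b (M.inv d) = b d) (hv : ∀ v, ∑ d ∈ hM.vf v, b d = 0) :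
    ∃ X : Finset M.F, ∀ d, b d = ind X (M.fac d) + ind X (M.fac (M.inv d)) := by
  obtain ⟨X, hX⟩ := hP hfin.toFinset (by
    intro d hd
    simp only [Set.Finite.mem_toFinset, Set.mem_ofPred_eq] at hd ⊢
    rw [hinv]; exact hd) (by
    intro v
    rw [hM.even_vert_iff, ind_toFinset]
    exact hv v)
  refine ⟨X, fun d => ?_⟩
  apply z2_ext
  rw [← z2_xor, ind_ne, ind_ne, ← hX]
  simp

/-- Filling of the cycles of the incidence graph, for functions. -/
lemma Pre.fill_fun (hM : M.Pre Δ) (hP : M.Plane) (Z : D → ZMod 2) (hfin : {d | Z d ≠ 0}.Finite)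
    (hv : ∀ v, ∑ d ∈ hM.vf v, Z d = 0) (hf : ∀ f, ∑ d ∈ hM.ff f, Z d = 0) :
    ∃ x : D → ZMod 2, {d | x d ≠ 0}.Finite ∧ (∀ d, x (M.inv d) = x d) ∧
      ∀ d, Z d = x d + x (M.rot d) := by
  classical
  obtain ⟨c, hc1, hc2⟩ := exists_prim M.face hM.face_pos Z (by
    intro d
    rw [← hM.sum_ff]; exact hf _)
  have hcfin : {d | c d ≠ 0}.Finite := by
    have h1 : {d | c d ≠ 0} ⊆ ⋃ e ∈ hfin.toFinset, {d | M.fac d = M.fac e} := by
      intro d hd
      obtain ⟨e, he1, he2⟩ := hc2 d hd
      simp only [Set.mem_iUnion]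
      refine ⟨e, by simpa using he2, ?_⟩
      exact M.fac_eq_iff.2 he1
    refine Set.Finite.subset (Set.Finite.biUnion (Finset.finite_toSet _) ?_) h1
    intro e _
    exact M.finite_fac (hM.face_pos e)
  have hcinv : ∀ d, c (M.inv d) = c (M.rot.symm d) + Z (M.rot.symm d) := by
    intro d
    have h1 := hc1 (M.rot.symm d)
    rw [M.face_apply, M.rot.apply_symm_apply] at h1
    exact z2_add_eq h1
  have hinvfin : ∀ g : D → ZMod 2, {d | g d ≠ 0}.Finite → {d | g (M.inv d) ≠ 0}.Finite := by
    intro g hg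
    exact hg.preimage (f := M.inv) (M.inv.injective.injOn)
  obtain ⟨X, hX⟩ := hM.plane_fun hP (fun d => c d + c (M.inv d)) (by
    apply (hcfin.union (hinvfin c hcfin)).subset
    intro d hd
    simp only [Set.mem_ofPred_eq, Set.mem_union] at hd ⊢
    by_contra hcon
    push Not at hcon
    apply hd
    rw [hcon.1, hcon.2, add_zero]) (by
    intro d
    rw [M.inv_inv, add_comm]) (by
    intro v
    rw [Finset.sum_add_distrib, Finset.sum_congr rfl (fun d _ => hcinv d),
      Finset.sum_add_distrib, hM.sum_vf_rot_symm c, hM.sum_vf_rot_symm Z, hv, add_zero,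
      z2_add_self])
  have hXfin : {d | ind X (M.fac d) ≠ 0}.Finite := by
    have h1 : {d | ind X (M.fac d) ≠ 0} ⊆ ⋃ f ∈ X, {d | M.fac d = f} := by
      intro d hd
      simp only [Set.mem_iUnion]
      exact ⟨M.fac d, by simpa [ind_ne] using hd, rfl⟩
    refine Set.Finite.subset (Set.Finite.biUnion (Finset.finite_toSet _) ?_) h1
    intro f _
    obtain ⟨d, rfl⟩ := M.fac_surj f
    exact M.finite_fac (hM.face_pos d)
  have hinvx : ∀ d, c (M.inv d) + ind X (M.fac (M.inv d)) = c d + ind X (M.fac d) := by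
    intro d
    have h1 := hX d
    generalize c d = a1 at *
    generalize c (M.inv d) = a2 at *
    generalize ind X (M.fac d) = a3 at *
    generalize ind X (M.fac (M.inv d)) = a4 at *
    revert a1 a2 a3 a4
    decide
  refine ⟨fun d => c d + ind X (M.fac d), ?_, hinvx, ?_⟩
  · apply (hcfin.union hXfin).subset
    intro d hd
    simp only [Set.mem_ofPred_eq, Set.mem_union] at hd ⊢
    by_contra hcon
    push Not at hcon
    apply hd
    rw [hcon.1, hcon.2, add_zero]
  · intro d
    simp only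
    have h1 := hinvx (M.rot d)
    rw [← h1, ← M.face_apply, M.fac_face, ← hc1 d]
    generalize c d = a1
    generalize c (M.face d) = a2
    generalize ind X (M.fac d) = a3
    revert a1 a2 a3
    decide

/-- A set with exactly one dart of every edge. -/
lemma exists_section (M : CMap D) : ∃ H : Set D, ∀ d, ¬ (d ∈ H ↔ M.inv d ∈ H) := by
  refine ⟨{d | WellOrderingRel d (M.inv d)}, fun d => ?_⟩
  simp only [Set.mem_ofPred_eq, M.inv_inv]
  intro h
  rcases trichotomous_of WellOrderingRel d (M.inv d) with h1 | h1 | h1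
  · exact asymm_of WellOrderingRel h1 (h.1 h1)
  · exact M.inv_ne d h1.symm
  · exact asymm_of WellOrderingRel h1 (h.2 h1)

/-- `DualPlane` for functions. -/
lemma Pre.dual_fun (hM : M.Pre Δ) (hP : M.Plane) (b : D → ZMod 2) (hfin : {d | b d ≠ 0}.Finite)
    (hinv : ∀ d, b (M.inv d) = b d) (hf : ∀ f, ∑ d ∈ hM.ff f, b d = 0) :
    ∃ X : Finset M.V, ∀ d, b d = ind X (M.vert d) + ind X (M.vert (M.inv d)) := by
  classical
  obtain ⟨H, hH⟩ := M.exists_section
  set a : D → ZMod 2 := fun d => if d ∈ H then b d else 0 with ha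
  have hab : ∀ d, a d + a (M.inv d) = b d := by
    intro d
    simp only [ha]
    have h1 := hH d
    by_cases h2 : d ∈ H
    · have h3 : M.inv d ∉ H := fun h3 => h1 ⟨fun _ => h3, fun _ => h2⟩
      rw [if_pos h2, if_neg h3, add_zero]
    · have h3 : M.inv d ∈ H := by
        by_contra h3
        exact h1 ⟨fun h => absurd h h2, fun h => absurd h h3⟩
      rw [if_neg h2, if_pos h3, zero_add, hinv]
  have hafin : {d | a d ≠ 0}.Finite := by
    apply hfin.subset
    intro d hd
    simp only [ha, Set.mem_ofPred_eq] at hd ⊢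
    intro h
    apply hd
    rw [h]; simp
  obtain ⟨x, hx1, hx2, hx3⟩ := hM.fill_fun hP (fun d => a d + a (M.rot d)) (by
    apply (hafin.union (hafin.preimage (f := M.rot) (M.rot.injective.injOn))).subset
    intro d hd
    simp only [Set.mem_ofPred_eq, Set.mem_union, Set.mem_preimage] at hd ⊢
    by_contra hcon
    push Not at hcon
    apply hd
    rw [hcon.1, hcon.2, add_zero]) (by
    intro v
    rw [Finset.sum_add_distrib, hM.sum_vf_rot a, z2_add_self]) (by
    intro f
    rw [Finset.sum_add_distrib, hM.sum_ff_rot a, ← Finset.sum_add_distrib,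
      Finset.sum_congr rfl (fun d _ => hab d), hf])
  -- `u = x + a` is invariant under `rot`
  have hu : ∀ d, x (M.rot d) + a (M.rot d) = x d + a d := by
    intro d
    have h1 := hx3 d
    generalize x d = a1 at *
    generalize x (M.rot d) = a2 at *
    generalize a d = a3 at *
    generalize a (M.rot d) = a4 at *
    revert a1 a2 a3 a4
    decide
  have huz : ∀ (i : ℤ) (d : D), x ((M.rot ^ i) d) + a ((M.rot ^ i) d) = x d + a d := by
    intro i
    induction i using Int.induction_on with
    | zero => intro d; simp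
    | succ n ih => intro d; rw [zpow_add, zpow_one, Equiv.Perm.mul_apply, ih, hu]
    | pred n ih =>
      intro d
      rw [zpow_sub, zpow_one, Equiv.Perm.mul_apply, ih, ← hu (M.rot⁻¹ d)]
      simp
  have hufin : {d | x d + a d ≠ 0}.Finite := by
    apply (hx1.union hafin).subset
    intro d hd
    simp only [Set.mem_ofPred_eq, Set.mem_union] at hd ⊢
    by_contra hcon
    push Not at hcon
    apply hd
    rw [hcon.1, hcon.2, add_zero]
  have key : ∀ d, ind (hufin.toFinset.image M.vert) (M.vert d) = x d + a d := by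
    intro d
    apply z2_ext
    rw [ind_ne, Finset.mem_image]
    constructor
    · rintro ⟨e, he, hed⟩
      simp only [Set.Finite.mem_toFinset, Set.mem_ofPred_eq] at he
      obtain ⟨i, hi⟩ := M.vert_eq_iff.1 hed
      rw [← hi, huz]
      exact he
    · intro h
      exact ⟨d, by simpa using h, rfl⟩
  refine ⟨hufin.toFinset.image M.vert, fun d => ?_⟩
  rw [key, key, ← hab d, hx2]
  generalize x d = a1
  generalize a d = a2
  generalize a (M.inv d) = a3
  revert a1 a2 a3
  decide

end CMap

end Tess
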