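import Pool.Agent.Work.MP_8c67d3_co_helper72.Z2

/-!
# Block E of MP_8c67d3_co
-/

set_option autoImplicit false

namespace Tess

theorem fillBlock : FillStatement := by
  intro D M Δ hM hP
  constructor
  · intro z hv hf
    obtain ⟨x, hx1, hx2, hx3⟩ := hM.fill_fun hP (ind z) (ind_supp z)
      (fun v => (hM.even_vert_iff z v).1 (hv v)) (fun f => (hM.even_fac_iff z f).1 (hf f))
    refine ⟨hx1.toFinset, ?_, ?_⟩
    · intro d hd
      simp only [Set.Finite.mem_toFinset, Set.mem_ofPred_eq] at hd ⊢
      rw [hx2]; exact hd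
    · intro d
      rw [← ind_ne (A := z), hx3 d, ← z2_xor]
      simp [CMap.bd]
  · intro A hA hf
    obtain ⟨X, hX⟩ := hM.dual_fun hP (ind A) (ind_supp A) (by
      intro d
      apply z2_ext
      rw [ind_ne, ind_ne]
      constructor
      · intro h
        have := hA _ h
        rwa [M.inv_inv] at this
      · exact hA d) (fun f => (hM.even_fac_iff A f).1 (hf f))
    refine ⟨X, fun d => ?_⟩
    rw [← ind_ne (A := A), hX d, ← z2_xor, ind_ne, ind_ne]

end Tess
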