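import Pool.Agent.Work.MP_8c67d3_co_helper72.P1b

/-!
# Block P1 of MP_8c67d3_co: the isoperimetric inequality
-/

set_option autoImplicit false

namespace Tess

namespace CMap

variable {D : Type} {M : CMap D} {Δ : ℕ}

/-- A finite set of faces is determined by its boundary darts. -/
lemma Pre.bx_inj (hM : M.Pre Δ) {X Y : Finset M.F} (h : hM.bx X = hM.bx Y) : X = Y := by
  have h1 : ∀ (Z : Finset M.F) (d : D), ind Z (M.fac d) + ind Z (M.fac (M.inv d)) ≠ 0 ↔
      (d ∈ hM.bx Z ∨ M.inv d ∈ hM.bx Z) := by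
    intro Z d
    rw [← z2_xor, ind_ne, ind_ne, hM.mem_bx, hM.mem_bx, M.inv_inv]
    tauto
  have h2 := hM.const_zero (fun f => ind X f + ind Y f) (by
    intro d
    have h3 : ind X (M.fac d) + ind X (M.fac (M.inv d)) =
        ind Y (M.fac d) + ind Y (M.fac (M.inv d)) := by
      apply z2_ext
      rw [h1, h1, h]
    generalize ind X (M.fac d) = a1 at *
    generalize ind X (M.fac (M.inv d)) = a2 at *
    generalize ind Y (M.fac d) = a3 at *
    generalize ind Y (M.fac (M.inv d)) = a4 at *
    revert a1 a2 a3 a4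
    decide) (by
    apply ((hM.dx X).finite_toSet.union (hM.dx Y).finite_toSet).subset
    intro d hd
    simp only [Set.mem_ofPred_eq] at hd
    simp only [Set.mem_union, Finset.mem_coe, hM.mem_dx]
    by_contra hcon
    push Not at hcon
    apply hd
    have e1 : ind X (M.fac d) = 0 := by
      by_contra h; exact hcon.1 (ind_ne.1 h)
    have e2 : ind Y (M.fac d) = 0 := by
      by_contra h; exact hcon.2 (ind_ne.1 h)
    rw [e1, e2, add_zero])
  ext f
  rw [← ind_ne, ← ind_ne (A := Y), z2_eq_of_add (h2 f)]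

/-- The hull of a finite set of faces. -/
lemma Pre.exists_hull (hM : M.Pre Δ) (X : Finset M.F) : ∃ X' : Finset M.F, X ⊆ X' ∧
    hM.bx X' ⊆ hM.bx X ∧ ∀ Y : Finset M.F, (∀ d, ind Y (M.fac d) + ind Y (M.fac (M.inv d)) ≠ 0 →
      d ∈ hM.ex X') → Y ⊆ X' := by
  classical
  set S : Set (Finset M.F) := {X' | X ⊆ X' ∧ hM.bx X' ⊆ hM.bx X} with hS
  have hfin : S.Finite := by
    have h1 : (hM.bx '' S).Finite := by
      apply ((hM.bx X).powerset.finite_toSet).subset
      rintro _ ⟨X', hX', rfl⟩
      simp only [Finset.coe_powerset, Set.mem_preimage, Set.mem_powerset_iff, Finset.coe_subset]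
      exact hX'.2
    exact Set.Finite.of_finite_image h1 (fun a _ b _ hab => hM.bx_inj hab)
  obtain ⟨X', hX', hmax⟩ := Set.exists_max_image S Finset.card hfin ⟨X, Finset.Subset.refl _,
    Finset.Subset.refl _⟩
  refine ⟨X', hX'.1, hX'.2, ?_⟩
  intro Y hY
  have hmem : X' ∪ Y ∈ S := by
    refine ⟨hX'.1.trans Finset.subset_union_left, ?_⟩
    intro d hd
    rw [hM.mem_bx] at hd
    simp only [Finset.mem_union, not_or] at hd
    obtain ⟨h1, h2, h3⟩ := hd
    by_cases h4 : M.fac d ∈ X'
    · exact hX'.2 (hM.mem_bx.2 ⟨h4, h2⟩)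
    · exfalso
      have h5 : M.fac d ∈ Y := h1.resolve_left h4
      have h6 := hY d (by
        rw [← z2_xor, ind_ne, ind_ne]
        tauto)
      rw [hM.mem_ex] at h6
      rcases h6 with h6 | h6
      · exact h4 h6
      · exact h2 h6
  have h1 := hmax _ hmem
  have h2 : X' = X' ∪ Y := Finset.eq_of_subset_of_card_le Finset.subset_union_left h1
  rw [h2]
  exact Finset.subset_union_right

end CMap

lemma curv_eq (σ : List ℕ) :
    curv σ = 1 - (σ.length : ℚ) / 2 + (σ.map fun p : ℕ => 1 / (p : ℚ)).sum := by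
  unfold curv
  first
  | rfl
  | (congr 2
     induction σ with
     | nil => simp
     | cons a l ih => simp_all)

theorem isoFBlock : IsoFStatement := by
  intro σ _ _ hκ
  classical
  set κ := curv σ with hκdef
  have hκ' : 0 < |κ| := abs_pos.2 hκ
  refine ⟨⌈3 / (2 * |κ|)⌉₊, ?_⟩
  intro D M Δ hM hP hσ X
  rw [hM.ncard_bx]
  obtain ⟨H, hH⟩ := M.exists_section
  have hcurv := curv_eq σ
  rw [← hκdef] at hcurv
  set S := (σ.map fun p : ℕ => 1 / (p : ℚ)).sum with hS
  have main : |κ| * X.card ≤ 3 / 2 * (hM.bx X).card := by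
    rcases lt_or_gt_of_ne hκ with hneg | hpos
    · obtain ⟨X', h1, h2, h3⟩ := hM.exists_hull X
      have e1 := hM.card_eh_le X' hH hP h3
      have e2 := hM.card_half X' hH
      have e3 := hM.card_ex X'
      have e4 := hM.card_dx hσ X'
      have e5 := (hM.vx_bounds hσ X').2
      have e6 : (hM.bx X').card ≤ (hM.bx X).card := Finset.card_le_card h2
      have e7 : X.card ≤ X'.card := Finset.card_le_card h1
      have f1 : ((hM.eh X' H).card : ℚ) ≤ (hM.vx X').card + X'.card := by exact_mod_cast e1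
      have f2 : ((hM.ex X').card : ℚ) = 2 * (hM.eh X' H).card := by exact_mod_cast e2
      have f3 : ((hM.ex X').card : ℚ) = σ.length * X'.card + (hM.bx X').card := by
        rw [e4] at e3
        exact_mod_cast e3
      have f6 : ((hM.bx X').card : ℚ) ≤ (hM.bx X).card := by exact_mod_cast e6
      have f7 : (X.card : ℚ) ≤ X'.card := by exact_mod_cast e7
      rw [abs_of_neg hneg]
      have g1 : -κ * X'.card ≤ 1 / 2 * (hM.bx X').card := by
        rw [hcurv]
        linarith
      have g2 : -κ * X.card ≤ -κ * X'.card := mul_le_mul_of_nonneg_left f7 (by linarith)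
      have g3 : (0 : ℚ) ≤ (hM.bx X).card := by positivity
      linarith
    · have e1 := hM.le_card_eh X hH
      have e2 := hM.card_half X hH
      have e3 := hM.card_ex X
      have e4 := hM.card_dx hσ X
      have e5 := (hM.vx_bounds hσ X).1
      have f1 : ((X.card : ℚ) + (hM.vx X).card) ≤ (hM.eh X H).card + (hM.bx X).card := by
        exact_mod_cast e1
      have f2 : ((hM.ex X).card : ℚ) = 2 * (hM.eh X H).card := by exact_mod_cast e2
      have f3 : ((hM.ex X).card : ℚ) = σ.length * X.card + (hM.bx X).card := by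
        rw [e4] at e3
        exact_mod_cast e3
      rw [abs_of_pos hpos, hcurv]
      linarith
  have h1 : (X.card : ℚ) ≤ 3 / (2 * |κ|) * (hM.bx X).card := by
    have h2 : 3 / (2 * |κ|) * (hM.bx X).card = (3 / 2 * (hM.bx X).card) / |κ| := by
      field_simp
    rw [h2, le_div_iff₀ hκ', mul_comm]
    exact main
  have h2 : (3 / (2 * |κ|) : ℚ) ≤ (⌈3 / (2 * |κ|)⌉₊ : ℚ) := Nat.le_ceil _
  have h3 : (0 : ℚ) ≤ (hM.bx X).card := by positivity
  have h4 : (X.card : ℚ) ≤ (⌈3 / (2 * |κ|)⌉₊ : ℚ) * (hM.bx X).card :=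
    h1.trans (mul_le_mul_of_nonneg_right h2 h3)
  exact_mod_cast h4

end Tess
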