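import Pool.Agent.Work.MP_8c67d3_co_helper72.P1a

/-!
# Block P2 of MP_8c67d3_co: the isoperimetric inequality for sets of edges
-/

set_option autoImplicit false

namespace Tess

namespace CMap

variable {D : Type} {M : CMap D} {Δ : ℕ}

lemma Pre.card_dx_le (hM : M.Pre Δ) (X : Finset M.F) : (hM.dx X).card ≤ X.card * Δ := by
  classical
  unfold Pre.dx
  apply Finset.card_biUnion_le_card_mul
  intro f _
  obtain ⟨d, rfl⟩ := M.fac_surj f
  rw [hM.card_ff]
  exact hM.face_le d

lemma bd_finite (E : Finset D) : (M.bd (↑E : Set D)).Finite := by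
  apply (E.finite_toSet.union (E.finite_toSet.preimage (f := M.rot) M.rot.injective.injOn)).subset
  intro d hd
  simp only [bd, Set.mem_ofPred_eq, Finset.mem_coe] at hd
  simp only [Set.mem_union, Finset.mem_coe, Set.mem_preimage]
  tauto

end CMap

theorem isoEBlock : IsoEStatement := by
  intro Δ C
  refine ⟨Δ + Δ * C * Δ, ?_⟩
  intro D M hM hC E hE
  classical
  have hbfin := M.bd_finite E
  set B := hbfin.toFinset with hB
  have hBmem : ∀ d, d ∈ B ↔ ¬ (d ∈ E ↔ M.rot d ∈ E) := by
    intro d
    simp [hB, CMap.bd]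
  have hBcard : (M.bd (↑E : Set D)).ncard = B.card := Set.ncard_eq_toFinset_card _ hbfin
  rw [hBcard]
  set Y := B.image M.fac with hY
  set X := (E.image M.fac).filter (fun f => ∀ d, M.fac d = f → d ∈ E) with hX
  have hXmem : ∀ f, f ∈ X ↔ (∃ d ∈ E, M.fac d = f) ∧ ∀ d, M.fac d = f → d ∈ E := by
    intro f
    simp [hX]
  have hface : ∀ d, M.face d ∈ E ↔ M.rot d ∈ E := by
    intro d
    rw [M.face_apply]
    constructor
    · intro h
      have := hE _ h
      rwa [M.inv_inv] at this
    · exact hE _
  have hcase : ∀ d ∈ E, M.fac d ∈ Y ∨ M.fac d ∈ X := by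
    intro d hd
    by_cases hdX : M.fac d ∈ X
    · exact Or.inr hdX
    · left
      rw [hXmem] at hdX
      push Not at hdX
      obtain ⟨d', hd', hd'E⟩ := hdX ⟨d, hd, rfl⟩
      rw [eq_comm, M.fac_eq_iff_lt (hM.face_pos d)] at hd'
      obtain ⟨i, -, hi⟩ := hd'
      -- the first exit
      have hex : ∃ j, (M.face ^ j) d ∈ E ∧ M.face ((M.face ^ j) d) ∉ E := by
        by_contra hcon
        push Not at hcon
        have hall : ∀ j, (M.face ^ j) d ∈ E := by
          intro j
          induction j with
          | zero => simpa using hd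
          | succ n ih =>
            rw [pow_succ', Equiv.Perm.mul_apply]
            exact hcon n ih
        apply hd'E
        rw [← hi]
        exact hall i
      obtain ⟨j, hj1, hj2⟩ := hex
      rw [hface] at hj2
      rw [hY, Finset.mem_image]
      refine ⟨(M.face ^ j) d, ?_, M.fac_face_pow j d⟩
      rw [hBmem]
      tauto
  have hYcard : Y.card ≤ B.card := Finset.card_image_le
  have h1 : E ⊆ hM.dx Y ∪ hM.dx X := by
    intro d hd
    rw [Finset.mem_union, hM.mem_dx, hM.mem_dx]
    exact hcase d hd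
  have h2 : E.card ≤ (hM.dx Y).card + (hM.dx X).card :=
    (Finset.card_le_card h1).trans (Finset.card_union_le _ _)
  have h3 := hM.card_dx_le Y
  have h4 := hM.card_dx_le X
  have h5 := hC X
  rw [hM.ncard_bx] at h5
  have h6 : (hM.bx X).card ≤ (hM.dx Y).card := by
    rw [← Finset.card_image_of_injective (hM.bx X) M.inv.injective]
    apply Finset.card_le_card
    intro e he
    obtain ⟨d, hd, rfl⟩ := Finset.mem_image.1 he
    rw [hM.mem_bx] at hd
    rw [hM.mem_dx]
    have hdE : d ∈ E := ((hXmem _).1 hd.1).2 d rfl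
    exact (hcase _ (hE d hdE)).resolve_right hd.2
  calc E.card ≤ (hM.dx Y).card + (hM.dx X).card := h2
    _ ≤ Y.card * Δ + X.card * Δ := Nat.add_le_add h3 h4
    _ ≤ Y.card * Δ + (C * (Y.card * Δ)) * Δ := by
      apply Nat.add_le_add_left
      apply Nat.mul_le_mul_right
      exact h5.trans (Nat.mul_le_mul_left _ (h6.trans h3))
    _ ≤ B.card * Δ + (C * (B.card * Δ)) * Δ := by
      gcongr
    _ = (Δ + Δ * C * Δ) * B.card := by ring

end Tess
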