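import Pool.Agent.Work.MP_8c67d3_co_helper72.Z2

/-!
# Block P1 of MP_8c67d3_co, part a: counting
-/

set_option autoImplicit false

namespace Tess

namespace CMap

variable {D : Type} {M : CMap D} {Δ : ℕ}

open Classical in
/-- The darts of a finite set of faces. -/
noncomputable def Pre.dx (hM : M.Pre Δ) (X : Finset M.F) : Finset D := X.biUnion hM.ff

@[simp] lemma Pre.mem_dx (hM : M.Pre Δ) {X : Finset M.F} {d : D} : d ∈ hM.dx X ↔ M.fac d ∈ X := by
  classical
  simp [Pre.dx]

open Classical in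
/-- The boundary darts of a finite set of faces. -/
noncomputable def Pre.bx (hM : M.Pre Δ) (X : Finset M.F) : Finset D :=
  (hM.dx X).filter (fun d => M.fac (M.inv d) ∉ X)

@[simp] lemma Pre.mem_bx (hM : M.Pre Δ) {X : Finset M.F} {d : D} :
    d ∈ hM.bx X ↔ M.fac d ∈ X ∧ M.fac (M.inv d) ∉ X := by
  classical
  simp [Pre.bx]

lemma Pre.ncard_bx (hM : M.Pre Δ) (X : Finset M.F) :
    {d | M.fac d ∈ X ∧ M.fac (M.inv d) ∉ X}.ncard = (hM.bx X).card := by
  rw [← Set.ncard_coe_finset]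
  congr 1
  ext d
  simp

open Classical in
/-- The darts of the edges which are incident with a finite set of faces. -/
noncomputable def Pre.ex (hM : M.Pre Δ) (X : Finset M.F) : Finset D :=
  hM.dx X ∪ (hM.dx X).image M.inv

@[simp] lemma Pre.mem_ex (hM : M.Pre Δ) {X : Finset M.F} {d : D} :
    d ∈ hM.ex X ↔ M.fac d ∈ X ∨ M.fac (M.inv d) ∈ X := by
  classical
  simp only [Pre.ex, Finset.mem_union, hM.mem_dx, Finset.mem_image]
  constructor
  · rintro (h | ⟨e, he, rfl⟩)
    · exact Or.inl h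
    · exact Or.inr (by rwa [M.inv_inv])
  · rintro (h | h)
    · exact Or.inl h
    · exact Or.inr ⟨M.inv d, h, M.inv_inv d⟩

open Classical in
/-- The vertices which are incident with a finite set of faces. -/
noncomputable def Pre.vx (hM : M.Pre Δ) (X : Finset M.F) : Finset M.V := (hM.dx X).image M.vert

lemma Pre.mem_vx (hM : M.Pre Δ) {X : Finset M.F} {v : M.V} :
    v ∈ hM.vx X ↔ ∃ d, M.fac d ∈ X ∧ M.vert d = v := by
  classical
  simp [Pre.vx]

lemma Pre.card_ff (hM : M.Pre Δ) (d : D) :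
    (hM.ff (M.fac d)).card = Function.minimalPeriod M.face d := by
  have h := hM.sum_ff (fun _ => (1 : ℕ)) d
  simpa using h

lemma Pre.card_vf (hM : M.Pre Δ) (d : D) : (hM.vf (M.vert d)).card = M.val d := by
  rw [← M.ncard_vert (hM.val_pos d), ← Set.ncard_coe_finset]
  congr 1
  ext e
  simp

lemma Pre.card_dx (hM : M.Pre Δ) {σ : List ℕ} (hσ : M.HasSeq σ) (X : Finset M.F) :
    (hM.dx X).card = σ.length * X.card := by
  classical
  unfold Pre.dx
  rw [Finset.card_biUnion]
  · rw [Finset.sum_const_nat (m := σ.length), mul_comm]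
    intro f _
    obtain ⟨d, rfl⟩ := M.fac_surj f
    rw [hM.card_ff, (hσ d).1]
  · intro f _ g _ hfg
    rw [Function.onFun, Finset.disjoint_left]
    intro d h1 h2
    rw [hM.mem_ff] at h1 h2
    exact hfg (h1.symm.trans h2)

lemma Pre.card_ex (hM : M.Pre Δ) (X : Finset M.F) :
    (hM.ex X).card = (hM.dx X).card + (hM.bx X).card := by
  classical
  have h1 : hM.ex X = hM.dx X ∪ (hM.bx X).image M.inv := by
    ext d
    simp only [hM.mem_ex, Finset.mem_union, hM.mem_dx, Finset.mem_image, hM.mem_bx]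
    constructor
    · rintro (h | h)
      · exact Or.inl h
      · by_cases h2 : M.fac d ∈ X
        · exact Or.inl h2
        · exact Or.inr ⟨M.inv d, ⟨h, by rwa [M.inv_inv]⟩, M.inv_inv d⟩
    · rintro (h | ⟨e, ⟨h, -⟩, rfl⟩)
      · exact Or.inl h
      · exact Or.inr (by rwa [M.inv_inv])
  rw [h1, Finset.card_union_of_disjoint, Finset.card_image_of_injective _ M.inv.injective]
  rw [Finset.disjoint_left]
  intro d h2 h3
  rw [hM.mem_dx] at h2
  obtain ⟨e, he, rfl⟩ := Finset.mem_image.1 h3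
  rw [hM.mem_bx] at he
  exact he.2 h2

open Classical in
lemma Pre.card_half (hM : M.Pre Δ) (X : Finset M.F) {H : Set D}
    (hH : ∀ d, ¬ (d ∈ H ↔ M.inv d ∈ H)) :
    (hM.ex X).card = 2 * ((hM.ex X).filter (fun d => d ∈ H)).card := by
  have h1 : (hM.ex X).filter (fun d => ¬ d ∈ H) =
      ((hM.ex X).filter (fun d => d ∈ H)).image M.inv := by
    ext d
    simp only [Finset.mem_filter, hM.mem_ex, Finset.mem_image]
    have h2 := hH d
    constructor
    · rintro ⟨h3, h4⟩
      refine ⟨M.inv d, ⟨by rw [M.inv_inv]; exact h3.symm, ?_⟩, M.inv_inv d⟩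
      by_contra h5
      exact h2 ⟨fun h => absurd h h4, fun h => absurd h h5⟩
    · rintro ⟨e, ⟨h3, h4⟩, rfl⟩
      rw [M.inv_inv] at h2 ⊢
      refine ⟨h3.symm, fun h5 => h2 ⟨fun _ => h4, fun _ => h5⟩⟩
  have h2 := Finset.card_filter_add_card_filter_not (s := hM.ex X) (fun d => d ∈ H)
  rw [h1, Finset.card_image_of_injective _ M.inv.injective] at h2
  omega

/-- The sum of the inverse valences around a face. -/
lemma HasSeq.sum_inv (hM : M.Pre Δ) {σ : List ℕ} (hσ : M.HasSeq σ) (f : M.F) :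
    ∑ d ∈ hM.ff f, (1 / (M.val d : ℚ)) = (σ.map fun p : ℕ => 1 / (p : ℚ)).sum := by
  obtain ⟨d, rfl⟩ := M.fac_surj f
  rw [hM.sum_ff, (hσ d).1]
  have h1 : ((M.word σ.length d).map fun p : ℕ => 1 / (p : ℚ)).sum =
      ∑ i ∈ Finset.range σ.length, (1 / (M.val ((M.face ^ i) d) : ℚ)) := by
    unfold word
    rw [List.map_ofFn, List.sum_ofFn, Finset.sum_range]
    rfl
  rw [← h1]
  rcases (hσ d).2 with h | h
  · exact (h.perm.map _).sum_eq
  · have h2 := (h.perm.map (fun p : ℕ => 1 / (p : ℚ))).sum_eq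
    rw [h2, List.map_reverse, List.sum_reverse]

lemma Pre.sum_dx (hM : M.Pre Δ) {σ : List ℕ} (hσ : M.HasSeq σ) (X : Finset M.F) :
    ∑ d ∈ hM.dx X, (1 / (M.val d : ℚ)) = X.card * (σ.map fun p : ℕ => 1 / (p : ℚ)).sum := by
  classical
  unfold Pre.dx
  rw [Finset.sum_biUnion]
  · rw [Finset.sum_congr rfl (fun f _ => hσ.sum_inv hM f), Finset.sum_const, nsmul_eq_mul]
  · intro f _ g _ hfg
    rw [Function.onFun, Finset.disjoint_left]
    intro d h1 h2
    rw [hM.mem_ff] at h1 h2
    exact hfg (h1.symm.trans h2)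

/-- If no dart at the vertex of `d` is a boundary dart and `fac d ∈ X`, then all the faces at the
vertex are in `X`. -/
lemma fac_mem_of_not_boundary {X : Finset M.F} {v : M.V}
    (hb : ∀ e, M.vert e = v → M.fac e ∈ X → M.fac (M.inv e) ∈ X) (hM : M.Pre Δ)
    {d : D} (hd : M.vert d = v) (hdX : M.fac d ∈ X) : ∀ e, M.vert e = v → M.fac e ∈ X := by
  have hstep : ∀ e, M.vert e = v → M.fac e ∈ X → M.fac (M.rot.symm e) ∈ X := by
    intro e he heX
    rw [← M.fac_inv]
    exact hb e he heX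
  have hpow : ∀ n : ℕ, M.fac ((M.rot.symm ^ n) d) ∈ X ∧ M.vert ((M.rot.symm ^ n) d) = v := by
    intro n
    induction n with
    | zero => simpa using ⟨hdX, hd⟩
    | succ n ih =>
      rw [pow_succ', Equiv.Perm.mul_apply]
      exact ⟨hstep _ ih.2 ih.1, by rw [M.vert_rot_symm]; exact ih.2⟩
  intro e he
  have h1 : M.vert e = M.vert d := he.trans hd.symm
  rw [M.vert_eq_iff_lt (hM.val_pos e)] at h1
  obtain ⟨i, -, hi⟩ := h1
  have h2 : (M.rot.symm ^ i) d = e := by
    rw [← hi]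
    have : M.rot.symm = M.rot⁻¹ := rfl
    rw [this, inv_pow]
    exact (M.rot ^ i).symm_apply_apply e
  rw [← h2]
  exact (hpow i).1

/-- Number of vertices of a finite set of faces. -/
lemma Pre.vx_bounds (hM : M.Pre Δ) {σ : List ℕ} (hσ : M.HasSeq σ) (X : Finset M.F) :
    (X.card * (σ.map fun p : ℕ => 1 / (p : ℚ)).sum : ℚ) ≤ (hM.vx X).card ∧
    ((hM.vx X).card : ℚ) ≤ X.card * (σ.map fun p : ℕ => 1 / (p : ℚ)).sum + (hM.bx X).card := by
  classical
  rw [← hM.sum_dx hσ]
  have hfib : ∑ d ∈ hM.dx X, (1 / (M.val d : ℚ)) =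
      ∑ v ∈ hM.vx X, ∑ d ∈ (hM.dx X).filter (fun d => M.vert d = v), (1 / (M.val d : ℚ)) := by
    symm
    apply Finset.sum_fiberwise_of_maps_to
    intro d hd
    exact Finset.mem_image_of_mem _ hd
  have hval : ∀ v d₀, M.vert d₀ = v →
      ∑ d ∈ (hM.dx X).filter (fun d => M.vert d = v), (1 / (M.val d : ℚ)) =
        (((hM.dx X).filter (fun d => M.vert d = v)).card : ℚ) / (M.val d₀ : ℚ) := by
    intro v d₀ hd₀
    rw [Finset.sum_congr rfl (g := fun _ => 1 / (M.val d₀ : ℚ)), Finset.sum_const, nsmul_eq_mul]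
    · ring
    · intro d hd
      rw [M.val_eq_of_vert_eq ((Finset.mem_filter.1 hd).2.trans hd₀.symm)]
  have hsub : ∀ v, (hM.dx X).filter (fun d => M.vert d = v) ⊆ hM.vf v := by
    intro v d hd
    rw [hM.mem_vf]
    exact (Finset.mem_filter.1 hd).2
  rw [hfib]
  constructor
  · have h1 : ((hM.vx X).card : ℚ) = ∑ _v ∈ hM.vx X, (1 : ℚ) := by simp
    rw [h1]
    apply Finset.sum_le_sum
    intro v _
    obtain ⟨d₀, rfl⟩ := M.vert_surj v
    rw [hval _ d₀ rfl]
    have h2 := hM.val_pos d₀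
    rw [div_le_one (by exact_mod_cast h2)]
    have h3 := Finset.card_le_card (hsub (M.vert d₀))
    rw [hM.card_vf] at h3
    exact_mod_cast h3
  · have h1 : ((hM.vx X).card : ℚ) = ∑ _v ∈ hM.vx X, (1 : ℚ) := by simp
    have h2 : ((hM.bx X).image M.vert).card ≤ (hM.bx X).card := Finset.card_image_le
    have h3 : (∑ v ∈ hM.vx X, (if v ∈ (hM.bx X).image M.vert then (1 : ℚ) else 0)) ≤
        (hM.bx X).card := by
      rw [← Finset.sum_filter, Finset.sum_const, nsmul_eq_mul, mul_one]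
      refine le_trans ?_ (Nat.cast_le.2 h2)
      apply Nat.cast_le.2
      apply Finset.card_le_card
      intro v hv
      exact (Finset.mem_filter.1 hv).2
    refine le_trans ?_ (add_le_add_right h3 _)
    rw [h1, ← Finset.sum_add_distrib]
    apply Finset.sum_le_sum
    intro v hv
    by_cases hvb : v ∈ (hM.bx X).image M.vert
    · rw [if_pos hvb]
      have : (0 : ℚ) ≤ ∑ d ∈ (hM.dx X).filter (fun d => M.vert d = v), (1 / (M.val d : ℚ)) :=
        Finset.sum_nonneg (fun d _ => by positivity)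
      linarith
    · rw [if_neg hvb, add_zero]
      obtain ⟨d₀, hd₀X, rfl⟩ := hM.mem_vx.1 hv
      rw [hval _ d₀ rfl]
      have h4 : (hM.dx X).filter (fun d => M.vert d = M.vert d₀) = hM.vf (M.vert d₀) := by
        apply Finset.Subset.antisymm (hsub _)
        intro e he
        rw [hM.mem_vf] at he
        rw [Finset.mem_filter, hM.mem_dx]
        refine ⟨?_, he⟩
        refine fac_mem_of_not_boundary (v := M.vert d₀) ?_ hM rfl hd₀X e he
        intro e' he' he'X
        by_contra hcon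
        exact hvb (Finset.mem_image.2 ⟨e', hM.mem_bx.2 ⟨he'X, hcon⟩, he'⟩)
      rw [h4, hM.card_vf]
      have h5 := hM.val_pos d₀
      have h6 : (M.val d₀ : ℚ) ≠ 0 := by exact_mod_cast h5.ne'
      rw [div_self h6]

end CMap

end Tess
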