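import Pool.Agent.Work.MP_8c67d3_co_helper72.P1a

/-!
# Block P1 of MP_8c67d3_co, part b: linear algebra over `ZMod 2`
-/

set_option autoImplicit false

namespace Tess

namespace CMap

variable {D : Type} {M : CMap D} {Δ : ℕ}

/-- A function of the faces which is constant across edges and has finite support vanishes. -/
lemma Pre.const_zero (hM : M.Pre Δ) (y : M.F → ZMod 2) (h : ∀ d, y (M.fac d) = y (M.fac (M.inv d)))
    (hfin : {d | y (M.fac d) ≠ 0}.Finite) : ∀ f, y f = 0 := by
  intro f
  obtain ⟨d, rfl⟩ := M.fac_surj f
  by_contra hd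
  have hrot : ∀ e, y (M.fac (M.rot e)) = y (M.fac e) := by
    intro e
    rw [h (M.rot e), M.fac_inv_rot]
  have hall : ∀ e, y (M.fac e) ≠ 0 := by
    apply M.induction_dart hM.connected (P := fun e => y (M.fac e) ≠ 0) _ _ d hd
    · intro e
      rw [hrot]
    · intro e he
      rw [← h]; exact he
  have h2 : (Set.univ : Set D).Finite := hfin.subset (fun e _ => hall e)
  have := hM.infinite
  exact Set.infinite_univ h2

section

variable (hM : M.Pre Δ) (X : Finset M.F) (E : Finset D)

open Classical in
/-- Extension of a chain of edges to the darts. -/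
noncomputable def extE (g : E → ZMod 2) (d : D) : ZMod 2 :=
  (if h : d ∈ E then g ⟨d, h⟩ else 0) + (if h : M.inv d ∈ E then g ⟨M.inv d, h⟩ else 0)

lemma extE_add (g g' : E → ZMod 2) (d : D) :
    extE (M := M) E (g + g') d = extE (M := M) E g d + extE (M := M) E g' d := by
  unfold extE
  split_ifs <;> (simp; try ring)

open Classical in
lemma extE_inv (g : E → ZMod 2) (d : D) :
    extE (M := M) E g (M.inv d) = extE (M := M) E g d := by
  have h1 : ∀ e e' : D, e = e' → (if h : e ∈ E then g ⟨e, h⟩ else 0) =
      (if h : e' ∈ E then g ⟨e', h⟩ else 0) := by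
    rintro e _ rfl; rfl
  unfold extE
  rw [add_comm, h1 _ _ (M.inv_inv d)]

/-- The boundary of a chain of edges. -/
noncomputable def bdE (Vs : Finset M.V) : (E → ZMod 2) →ₗ[ZMod 2] (Vs → ZMod 2) :=
  AddMonoidHom.toZModLinearMap 2
    { toFun := fun g v => ∑ d ∈ hM.vf v.1, extE (M := M) E g d
      map_zero' := by
        funext v
        simp [extE]
      map_add' := by
        intro g g'
        funext v
        simp only [extE_add, Finset.sum_add_distrib, Pi.add_apply] }

lemma bdE_apply (Vs : Finset M.V) (g : E → ZMod 2) (v : Vs) :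
    bdE hM E Vs g v = ∑ d ∈ hM.vf v.1, extE (M := M) E g d := rfl

open Classical in
/-- Extension by zero of a function on a finite set of faces. -/
noncomputable def extF (y : X → ZMod 2) (f : M.F) : ZMod 2 := if h : f ∈ X then y ⟨f, h⟩ else 0

lemma extF_add (y y' : X → ZMod 2) (f : M.F) : extF X (y + y') f = extF X y f + extF X y' f := by
  unfold extF
  split_ifs <;> simp

/-- The boundary of a chain of faces. -/
noncomputable def dE : (X → ZMod 2) →ₗ[ZMod 2] (E → ZMod 2) :=
  AddMonoidHom.toZModLinearMap 2
    { toFun := fun y e => extF X y (M.fac e.1) + extF X y (M.fac (M.inv e.1))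
      map_zero' := by
        funext v
        simp [extF]
      map_add' := by
        intro g g'
        funext v
        simp only [extF_add, Pi.add_apply]
        ring }

lemma dE_apply (y : X → ZMod 2) (e : E) :
    dE X E y e = extF X y (M.fac e.1) + extF X y (M.fac (M.inv e.1)) := rfl

end

section

variable (hM : M.Pre Δ) (X : Finset M.F) {H : Set D} (hH : ∀ d, ¬ (d ∈ H ↔ M.inv d ∈ H))

open Classical in
/-- One dart for each edge incident with `X`. -/
noncomputable def Pre.eh (H : Set D) : Finset D := (hM.ex X).filter (fun d => d ∈ H)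

lemma Pre.mem_eh (H : Set D) {d : D} : d ∈ hM.eh X H ↔ d ∈ hM.ex X ∧ d ∈ H := by
  classical
  simp [Pre.eh]

lemma Pre.ex_inv {d : D} (h : d ∈ hM.ex X) : M.inv d ∈ hM.ex X := by
  rw [hM.mem_ex] at h ⊢
  rw [M.inv_inv]
  exact h.symm

lemma Pre.vert_mem_vx {d : D} (h : d ∈ hM.ex X) : M.vert d ∈ hM.vx X := by
  rw [hM.mem_ex] at h
  rw [hM.mem_vx]
  rcases h with h | h
  · exact ⟨d, h, rfl⟩
  · exact ⟨M.rot.symm d, by rw [← M.fac_inv]; exact h, by simp⟩

include hH in
lemma Pre.extE_of_mem (g : hM.eh X H → ZMod 2) {d : D} (hd : d ∈ hM.eh X H) :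
    extE (M := M) (hM.eh X H) g d = g ⟨d, hd⟩ := by
  have h1 : M.inv d ∉ hM.eh X H := by
    intro h1
    rw [hM.mem_eh] at h1 hd
    exact hH d ⟨fun _ => h1.2, fun _ => hd.2⟩
  unfold extE
  rw [dif_pos hd, dif_neg h1, add_zero]

lemma Pre.extE_supp (g : hM.eh X H → ZMod 2) {d : D}
    (hd : extE (M := M) (hM.eh X H) g d ≠ 0) : d ∈ hM.ex X := by
  by_contra hcon
  apply hd
  have h1 : d ∉ hM.eh X H := fun h => hcon ((hM.mem_eh X H).1 h).1
  have h2 : M.inv d ∉ hM.eh X H := by
    intro h
    have := hM.ex_inv X ((hM.mem_eh X H).1 h).1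
    rw [M.inv_inv] at this
    exact hcon this
  unfold extE
  rw [dif_neg h1, dif_neg h2, add_zero]

include hH in
/-- Case of nonpositive curvature: if every finite set of faces whose boundary consists of edges
incident with `X` is contained in `X`, then `|E| ≤ |V| + |X|`. -/
lemma Pre.card_eh_le (hP : M.Plane)
    (hull : ∀ Y : Finset M.F, (∀ d, ind Y (M.fac d) + ind Y (M.fac (M.inv d)) ≠ 0 →
      d ∈ hM.ex X) → Y ⊆ X) :
    (hM.eh X H).card ≤ (hM.vx X).card + X.card := by
  classical
  set E := hM.eh X H with hE
  have h1 := LinearMap.finrank_range_add_finrank_ker (bdE hM E (hM.vx X))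
  rw [Module.finrank_fintype_fun_eq_card, Fintype.card_coe] at h1
  have h2 : Module.finrank (ZMod 2) (LinearMap.range (bdE hM E (hM.vx X))) ≤
      (hM.vx X).card := by
    have := Submodule.finrank_le (LinearMap.range (bdE hM E (hM.vx X)))
    rwa [Module.finrank_fintype_fun_eq_card, Fintype.card_coe] at this
  have h3 : LinearMap.ker (bdE hM E (hM.vx X)) ≤ LinearMap.range (dE X E) := by
    intro g hg
    rw [LinearMap.mem_ker] at hg
    obtain ⟨Y, hY⟩ := hM.plane_fun hP (extE (M := M) E g)
      ((hM.ex X).finite_toSet.subset (fun d hd => hM.extE_supp X g hd))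
      (extE_inv E g) (by
      intro v
      by_cases hv : v ∈ hM.vx X
      · have := congrFun hg ⟨v, hv⟩
        rw [bdE_apply] at this
        exact this
      · apply Finset.sum_eq_zero
        intro d hd
        rw [hM.mem_vf] at hd
        by_contra hne
        have h4 := hM.vert_mem_vx X (hM.extE_supp X g hne)
        rw [hd] at h4
        exact hv h4)
    have hYX : Y ⊆ X := by
      apply hull
      intro d hd
      rw [← hY] at hd
      exact hM.extE_supp X g hd
    have hext : ∀ f, extF X (fun f : X => ind Y f.1) f = ind Y f := by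
      intro f
      unfold extF
      split_ifs with hf
      · rfl
      · symm
        by_contra hne
        exact hf (hYX (ind_ne.1 hne))
    refine ⟨fun f => ind Y f.1, ?_⟩
    funext e
    rw [dE_apply, hext, hext, ← hY, hM.extE_of_mem X hH g e.2]
  have h4 : Module.finrank (ZMod 2) (LinearMap.ker (bdE hM E (hM.vx X))) ≤ X.card := by
    refine (Submodule.finrank_mono h3).trans ?_
    have := LinearMap.finrank_range_le (dE X E)
    rwa [Module.finrank_fintype_fun_eq_card, Fintype.card_coe] at this
  omega

include hH in
/-- Case of positive curvature: `|X| + |V| ≤ |E| + |∂X|`. -/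
lemma Pre.le_card_eh : X.card + (hM.vx X).card ≤ (hM.eh X H).card + (hM.bx X).card := by
  classical
  set E := hM.eh X H with hE
  have h1 := LinearMap.finrank_range_add_finrank_ker (bdE hM E (hM.vx X))
  rw [Module.finrank_fintype_fun_eq_card, Fintype.card_coe] at h1
  -- `dE` is injective
  have hinj : Function.Injective (dE X E) := by
    rw [injective_iff_map_eq_zero]
    intro y hy
    have h2 := hM.const_zero (extF X y) (by
      intro d
      by_cases hd : d ∈ hM.ex X
      · by_cases hdH : d ∈ H
        · have h3 := congrFun hy ⟨d, (hM.mem_eh X H).2 ⟨hd, hdH⟩⟩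
          rw [dE_apply] at h3
          exact z2_eq_of_add h3
        · have hdH' : M.inv d ∈ H := by
            by_contra h4
            exact hH d ⟨fun h => absurd h hdH, fun h => absurd h h4⟩
          have h3 := congrFun hy ⟨M.inv d, (hM.mem_eh X H).2 ⟨hM.ex_inv X hd, hdH'⟩⟩
          rw [dE_apply] at h3
          simp only [M.inv_inv] at h3
          exact (z2_eq_of_add h3).symm
      · rw [hM.mem_ex] at hd
        push Not at hd
        unfold extF
        rw [dif_neg hd.1, dif_neg hd.2]) (by
      apply (hM.dx X).finite_toSet.subset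
      intro d hd
      simp only [Set.mem_ofPred_eq] at hd
      simp only [Finset.mem_coe, hM.mem_dx]
      by_contra hcon
      apply hd
      unfold extF
      rw [dif_neg hcon])
    funext f
    have h3 := h2 f.1
    unfold extF at h3
    rw [dif_pos f.2] at h3
    exact h3
  -- the composition vanishes
  have hcomp : LinearMap.range (dE X E) ≤ LinearMap.ker (bdE hM E (hM.vx X)) := by
    rintro _ ⟨y, rfl⟩
    rw [LinearMap.mem_ker]
    funext v
    rw [bdE_apply]
    have h2 : ∀ d, extE (M := M) E (dE X E y) d = extF X y (M.fac d) +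
        extF X y (M.fac (M.rot.symm d)) := by
      intro d
      rw [← M.fac_inv]
      by_cases hd : d ∈ hM.ex X
      · by_cases hdH : d ∈ H
        · rw [hM.extE_of_mem X hH _ ((hM.mem_eh X H).2 ⟨hd, hdH⟩), dE_apply]
        · have hdH' : M.inv d ∈ H := by
            by_contra h4
            exact hH d ⟨fun h => absurd h hdH, fun h => absurd h h4⟩
          rw [← extE_inv, hM.extE_of_mem X hH _ ((hM.mem_eh X H).2 ⟨hM.ex_inv X hd, hdH'⟩),
            dE_apply]
          simp only [M.inv_inv]
          rw [add_comm]
      · have h3 : extE (M := M) E (dE X E y) d = 0 := by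
          by_contra h4
          exact hd (hM.extE_supp X _ h4)
        rw [h3]
        rw [hM.mem_ex] at hd
        push Not at hd
        unfold extF
        rw [dif_neg hd.1, dif_neg hd.2, add_zero]
    rw [Finset.sum_congr rfl (fun d _ => h2 d), Finset.sum_add_distrib,
      hM.sum_vf_rot_symm (fun d => extF X y (M.fac d)), z2_add_self]
    rfl
  have h5 : X.card ≤ Module.finrank (ZMod 2) (LinearMap.ker (bdE hM E (hM.vx X))) := by
    refine le_trans ?_ (Submodule.finrank_mono hcomp)
    rw [LinearMap.finrank_range_of_inj hinj, Module.finrank_fintype_fun_eq_card, Fintype.card_coe]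
  -- the cokernel
  let s : hM.bx X → (hM.vx X → ZMod 2) := fun b w => if w.1 = M.vert b.1 then 1 else 0
  set U := LinearMap.range (bdE hM E (hM.vx X)) ⊔ Submodule.span (ZMod 2) (Set.range s) with hU
  let δ : M.V → (hM.vx X → ZMod 2) := fun v w => if w.1 = v then 1 else 0
  have hbd : ∀ d, d ∈ hM.ex X → δ (M.vert d) + δ (M.vert (M.inv d)) ∈ U := by
    have key : ∀ d, d ∈ hM.eh X H → δ (M.vert d) + δ (M.vert (M.inv d)) ∈ U := by
      intro d hd
      have h6 : bdE hM E (hM.vx X) (fun e => if e.1 = d then 1 else 0) =
          δ (M.vert d) + δ (M.vert (M.inv d)) := by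
        funext v
        rw [bdE_apply, Pi.add_apply]
        have h7 : ∀ e, extE (M := M) E (fun e => if e.1 = d then 1 else 0) e =
            (if e = d then 1 else 0) + (if e = M.inv d then 1 else 0) := by
          intro e
          unfold extE
          congr 1
          · by_cases he : e = d
            · subst he
              rw [dif_pos hd]
            · rw [if_neg he]
              split_ifs with h8
              · exact if_neg he
              · rfl
          · by_cases he : e = M.inv d
            · subst he
              rw [dif_pos (by rw [M.inv_inv]; exact hd)]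
              simp
            · rw [if_neg he]
              have he' : M.inv e ≠ d := fun h => he (by rw [← h, M.inv_inv])
              split_ifs with h8
              · exact if_neg he'
              · rfl
        rw [Finset.sum_congr rfl (fun e _ => h7 e), Finset.sum_add_distrib,
          Finset.sum_ite_eq', Finset.sum_ite_eq']
        simp only [hM.mem_vf, δ]
        congr 1
        · simp only [eq_comm]
        · simp only [eq_comm]
      rw [← h6]
      exact Submodule.mem_sup_left ⟨_, rfl⟩
    intro d hd
    by_cases hdH : d ∈ H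
    · exact key d ((hM.mem_eh X H).2 ⟨hd, hdH⟩)
    · have hdH' : M.inv d ∈ H := by
        by_contra h4
        exact hH d ⟨fun h => absurd h hdH, fun h => absurd h h4⟩
      have := key (M.inv d) ((hM.mem_eh X H).2 ⟨hM.ex_inv X hd, hdH'⟩)
      rw [M.inv_inv] at this
      rwa [add_comm]
  have hall : ∀ v ∈ hM.vx X, δ v ∈ U := by
    intro v₀ hv₀
    by_contra hcon
    obtain ⟨d₀, hd₀X, rfl⟩ := (hM.mem_vx).1 hv₀
    have hP : ∀ d, M.vert d ∈ hM.vx X ∧ δ (M.vert d) ∉ U := by
      apply M.induction_dart hM.connected (P := fun d => M.vert d ∈ hM.vx X ∧ δ (M.vert d) ∉ U)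
        _ _ d₀ ⟨hv₀, hcon⟩
      · intro d
        rw [M.vert_rot]
      · rintro d ⟨hd1, hd2⟩
        obtain ⟨d₁, hd₁X, hd₁⟩ := (hM.mem_vx).1 hd1
        have hfac := fac_mem_of_not_boundary (v := M.vert d) (X := X) (by
          intro e he heX
          by_contra hne
          apply hd2
          apply Submodule.mem_sup_right
          apply Submodule.subset_span
          refine ⟨⟨e, hM.mem_bx.2 ⟨heX, hne⟩⟩, ?_⟩
          funext w
          simp only [s, δ, he]) hM hd₁ hd₁X
        have hdX : M.fac d ∈ X := hfac d rfl
        have hdex : d ∈ hM.ex X := hM.mem_ex.2 (Or.inl hdX)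
        refine ⟨hM.vert_mem_vx X (hM.ex_inv X hdex), fun h6 => hd2 ?_⟩
        have h7 := U.add_mem (hbd d hdex) h6
        have h8 : δ (M.vert d) + δ (M.vert (M.inv d)) + δ (M.vert (M.inv d)) = δ (M.vert d) := by
          funext w
          simp only [Pi.add_apply]
          rw [add_assoc, z2_add_self, add_zero]
        rwa [h8] at h7
    have hfin : (Set.univ : Set D).Finite := by
      have h9 : (Set.univ : Set D) ⊆ ⋃ v ∈ hM.vx X, {d | M.vert d = v} := by
        intro d _
        simp only [Set.mem_iUnion]
        exact ⟨M.vert d, (hP d).1, rfl⟩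
      refine Set.Finite.subset (Set.Finite.biUnion (Finset.finite_toSet _) ?_) h9
      intro v _
      obtain ⟨d, rfl⟩ := M.vert_surj v
      exact M.finite_vert (hM.val_pos d)
    have := hM.infinite
    exact Set.infinite_univ hfin
  have htop : U = ⊤ := by
    rw [eq_top_iff]
    intro h _
    have h6 : h = ∑ v, h v • δ v.1 := by
      funext w
      simp only [Finset.sum_apply, Pi.smul_apply, smul_eq_mul, δ, mul_ite, mul_one, mul_zero]
      have : ∀ v : hM.vx X, (w.1 = v.1) = (w = v) := fun v => by rw [Subtype.ext_iff]
      simp only [this]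
      simp
    rw [h6]
    exact Submodule.sum_mem _ (fun v _ => Submodule.smul_mem _ _ (hall v.1 v.2))
  have h6 : (hM.vx X).card ≤
      Module.finrank (ZMod 2) (LinearMap.range (bdE hM E (hM.vx X))) + (hM.bx X).card := by
    have h7 : Module.finrank (ZMod 2) U = (hM.vx X).card := by
      rw [htop, finrank_top, Module.finrank_fintype_fun_eq_card, Fintype.card_coe]
    have h8 := Submodule.finrank_add_le_finrank_add_finrank
      (LinearMap.range (bdE hM E (hM.vx X))) (Submodule.span (ZMod 2) (Set.range s))
    have h9 : Module.finrank (ZMod 2) (Submodule.span (ZMod 2) (Set.range s)) ≤ (hM.bx X).card := by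
      have := finrank_range_le_card (R := ZMod 2) s
      rwa [Fintype.card_coe] at this
    rw [← hU, h7] at h8
    omega
  omega

end

end CMap

end Tess
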